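import Pool.Agent.W2helper94.KC.Z
import Pool.Agent.W2helper94.KC.P5

set_option autoImplicit false

/-!
# MP_ac5134: the Kakeya inequality in tube form for tubes that meet over spheres of directions

Work in `ℝ^n = ℝ^d × ℝ`, `n = d + 1`, with its Euclidean norm (`Space d`), and let `P` be the
paraboloid `{(ω, |ω|²)}`, `|ω| ≤ 1`.  The box dual to the cap at `ω` is `box N (nor ω) f 0`: its long
side `N²` is in the direction of the unit normal `nor ω = (-2ω, 1)/√(1+4|ω|²)` and its other sides `N`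
are in the directions of an arbitrary orthonormal frame `f` of the orthogonal complement.

Split the coordinates of `ℝ^d` into `k ≥ 1` blocks of at least three coordinates; for `d = 2`, i.e.
`n = 3`, take one block of two coordinates.  Suppose that all the translated boxes whose cap centres
`ω` have their block norms `(|ω_1|, …, |ω_k|)` in the same cell of side `1/N` meet one common ball of
radius `K N`.  The position of this ball in `ℝ^n` is an arbitrary function of the cell: no regularity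
and no genericity is assumed.  For `k = 1`, which is possible in every dimension `n ≥ 3`, these are the
translates such that the boxes over each spherical shell (annulus for `n = 3`)
`j/N ≤ |ω| < (j+1)/N` of directions have a common point, up to `K N`.

For all such translates the conjectured comparison with the centred family holds, for every `p` in
`[1, ∞]`, with the constant `C (1 + log N)^((n+k+1)/n)`.
-/

open MeasureTheory Set ENNReal NNReal Metric

namespace Pool.Agent.Results.MP_ac5134_an.ConcurrentTranslates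

/-- Euclidean space `ℝ^d`. -/
abbrev Vec (d : ℕ) : Type := EuclideanSpace ℝ (Fin d)

/-- Euclidean space `ℝ^{d+1}`, written as `ℝ^d × ℝ` with the Euclidean norm. -/
abbrev Space (d : ℕ) : Type := WithLp 2 (Vec d × ℝ)

/-- The unit vector `(v, 1)/√(1+|v|²)`. -/
noncomputable def dir {d : ℕ} (v : Vec d) : Space d :=
  (√(1 + ‖v‖ ^ 2))⁻¹ • WithLp.toLp 2 (v, (1:ℝ))

/-- The unit normal `(-2ω, 1)/√(1+4|ω|²)` of the paraboloid at the point `(ω, |ω|²)`. -/
noncomputable def nor {d : ℕ} (ω : Vec d) : Space d := dir (-(2 : ℝ) • ω)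

/-- The box with centre `a`, side `N²` in the direction `e` and sides `N` in the directions `f j`. -/
def box {d : ℕ} (N : ℝ) (e : Space d) (f : Fin d → Space d) (a : Space d) : Set (Space d) :=
  {y | |inner ℝ e (y - a)| ≤ N ^ 2 / 2 ∧ ∀ j, |inner ℝ (f j) (y - a)| ≤ N / 2}

/-- The caps have centres `ω i` in the closed unit ball, `σ/N`-separated and at least `κ N^d` in
number, and `f i` is an orthonormal frame of the orthogonal complement of the normal at `ω i`. -/
def Caps {d : ℕ} {ι : Type} [Fintype ι] (σ κ N : ℝ) (ω : ι → Vec d) (f : ι → Fin d → Space d) : Prop :=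
  (∀ i, ‖ω i‖ ≤ 1) ∧ (∀ i j, i ≠ j → σ / N ≤ ‖ω i - ω j‖) ∧ κ * N ^ d ≤ (Fintype.card ι : ℝ) ∧
    ∀ i, Orthonormal ℝ (Fin.cons (nor (ω i)) (f i) : Fin (d + 1) → Space d)

/-- The sum of the indicators of the boxes of the caps with centres `a i`. -/
noncomputable def boxSum {d : ℕ} {ι : Type} [Fintype ι] (N : ℝ) (ω : ι → Vec d)
    (f : ι → Fin d → Space d) (a : ι → Space d) (y : Space d) : ℝ :=
  ∑ i, (box N (nor (ω i)) (f i) (a i)).indicator (fun _ => (1 : ℝ)) y

/-- The inequality of Q1 with constant `C`, for all exponents, for the boxes with centres `a i`. -/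
def Ineq {d : ℕ} {ι : Type} [Fintype ι] (C N : ℝ) (ω : ι → Vec d) (f : ι → Fin d → Space d)
    (a : ι → Space d) : Prop :=
  ∀ p : ℝ≥0∞, 1 ≤ p → eLpNorm (boxSum N ω f a) p volume ≤
    ENNReal.ofReal C * eLpNorm (boxSum N ω f 0) p volume

/-- The norms of the blocks of the vector `v`; the coordinate `i` belongs to the block `π i`. -/
noncomputable def radii {d k : ℕ} (π : Fin d → Fin k) (v : Vec d) (j : Fin k) : ℝ :=
  √(∑ i with π i = j, v i ^ 2)

/-- The cell of side `1/N` which contains the block norms of `v`. -/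
noncomputable def cell {d k : ℕ} (N : ℝ) (π : Fin d → Fin k) (v : Vec d) (j : Fin k) : ℤ :=
  ⌊N * radii π v j⌋

/-- All the boxes of the caps with block norms in the same cell meet one ball of radius `K N`; its
centre is an arbitrary function `z` of the cell. -/
def Concurrent {d k : ℕ} {ι : Type} (K N : ℝ) (π : Fin d → Fin k) (ω : ι → Vec d)
    (f : ι → Fin d → Space d) (a : ι → Space d) : Prop :=
  ∃ z : (Fin k → ℤ) → Space d, ∀ i,
    (box N (nor (ω i)) (f i) (a i) ∩ closedBall (z (cell N π (ω i))) (K * N)).Nonempty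

open Pool.Agent.W2helper94.KC

/-- The blocks. -/
noncomputable def blocks {d k : ℕ} (π : Fin d → Fin k) :
    (Σ j, Fin (Fintype.card {i // π i = j})) ≃ Fin d :=
  (Equiv.sigmaCongrRight (fun j => (Fintype.equivFin {i // π i = j}).symm)).trans
    (Equiv.sigmaFiberEquiv π)

theorem radii_eq {d k : ℕ} (π : Fin d → Fin k) (v : Vec d) : bn (blocks π) v = radii π v := by
  funext j
  unfold bn radii
  rw [EuclideanSpace.norm_eq]
  congr 1
  have h1 : ∀ i : Fin (Fintype.card {i // π i = j}), ‖(blk (blocks π) v j) i‖ ^ 2 =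
      (fun i : {i // π i = j} => v i.1 ^ 2) ((Fintype.equivFin {i // π i = j}).symm i) := by
    intro i
    rw [Real.norm_eq_abs, sq_abs]
    rfl
  rw [Finset.sum_congr rfl (fun i _ => h1 i)]
  refine (Equiv.sum_comp (Fintype.equivFin {i // π i = j}).symm
    (fun i : {i // π i = j} => v i.1 ^ 2)).trans ?_
  exact (Finset.sum_subtype (Finset.univ.filter (fun i => π i = j)) (by simp)
    (fun i => v i ^ 2)).symm

theorem main {d k : ℕ} (hd : 1 ≤ d) (π : Fin d → Fin (k + 1))
    (hm : ∀ j, 1 ≤ Fintype.card {i // π i = j}) (hP : PairsBd (blocks π)) (σ κ K : ℝ)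
    (hσ : 0 < σ) (hσ1 : σ ≤ 1) (hκ : 0 < κ) (hK : 0 ≤ K) :
    ∃ C : ℝ, 0 < C ∧ ∀ N : ℝ, 1 ≤ N → ∀ (ι : Type) [Fintype ι] (ω : ι → Vec d)
      (f : ι → Fin d → Space d) (a : ι → Space d), Caps σ κ N ω f → Concurrent K N π ω f a →
      Ineq (C * (1 + Real.log N) ^ (((d : ℝ) + ((k + 1 : ℕ) : ℝ) + 2) / (d + 1))) N ω f a := by
  obtain ⟨E, hE, hmom⟩ := box_moment hm hP hd hK hσ hσ1
  obtain ⟨C, hC, hfin⟩ := finish d hd hκ hE
  refine ⟨C, hC, ?_⟩
  intro N hN ι _ ω f a ⟨hω, hsep, hcard, hf⟩ ⟨z, hz⟩ p hp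
  have hlN : 0 ≤ Real.log N := Real.log_nonneg hN
  have h1 := hmom N hN ι ω f a z hω hsep hf (fun i => by
    have h := hz i
    have e : cel N (bn (blocks π) (ω i)) = cell N π (ω i) := by
      funext j
      unfold cel cell
      rw [radii_eq]
    rw [e]
    exact h)
  have h2 := hfin N hN ι ω f a ((1 + Real.log N) ^ (d + k + 3)) (one_le_pow₀ (by linarith))
    hcard hf h1 p hp
  have e : ((1 + Real.log N) ^ (d + k + 3)) ^ (1 / ((d : ℝ) + 1)) =
      (1 + Real.log N) ^ (((d : ℝ) + ((k + 1 : ℕ) : ℝ) + 2) / (d + 1)) := by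
    rw [← Real.rpow_natCast, ← Real.rpow_mul (by linarith)]
    congr 1
    push_cast
    ring
  rw [e] at h2
  exact h2

theorem hyps {d k : ℕ} (π : Fin d → Fin (k + 1))
    (hπ : (∀ j, 3 ≤ (Finset.univ.filter (fun i => π i = j)).card) ∨ (d = 2 ∧ k + 1 = 1)) :
    1 ≤ d ∧ (∀ j, 1 ≤ Fintype.card {i // π i = j}) ∧ PairsBd (blocks π) := by
  rcases hπ with hπ | ⟨rfl, hk⟩
  · have hm : ∀ j, 3 ≤ Fintype.card {i // π i = j} := by
      intro j
      rw [Fintype.card_subtype]
      exact hπ j
    refine ⟨?_, fun j => by have := hm j; omega, pairs (blocks π) hm⟩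
    have h1 := hπ 0
    have h2 := Finset.card_filter_le (Finset.univ : Finset (Fin d)) (fun i => π i = 0)
    simp only [Finset.card_univ, Fintype.card_fin] at h2
    omega
  · obtain rfl : k = 0 := by omega
    refine ⟨by norm_num, fun j => ?_, pairs2 (blocks π)⟩
    rw [Nat.one_le_iff_ne_zero, ← Nat.pos_iff_ne_zero, Fintype.card_pos_iff]
    exact ⟨⟨0, by rw [Fin.fin_one_eq_zero (π 0), Fin.fin_one_eq_zero j]⟩⟩

/-- **The Kakeya inequality in tube form, for all `p` in `[1, ∞]`, for translates that are concurrent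
over spheres of directions.** -/
theorem result (d k : ℕ) (hk : 1 ≤ k) (π : Fin d → Fin k)
    (hπ : (∀ j, 3 ≤ (Finset.univ.filter (fun i => π i = j)).card) ∨ (d = 2 ∧ k = 1)) (σ κ K : ℝ)
    (hσ : 0 < σ) (hσ1 : σ ≤ 1) (hκ : 0 < κ) (hK : 0 ≤ K) :
    ∃ C : ℝ, 0 < C ∧ ∀ N : ℝ, 1 ≤ N → ∀ (ι : Type) [Fintype ι] (ω : ι → Vec d)
      (f : ι → Fin d → Space d) (a : ι → Space d), Caps σ κ N ω f → Concurrent K N π ω f a →
      Ineq (C * (1 + Real.log N) ^ (((d : ℝ) + k + 2) / (d + 1))) N ω f a := by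
  obtain ⟨k, rfl⟩ : ∃ l, k = l + 1 := ⟨k - 1, by omega⟩
  obtain ⟨hd, hm, hP⟩ := hyps π hπ
  exact main hd π hm hP σ κ K hσ hσ1 hκ hK

end Pool.Agent.Results.MP_ac5134_an.ConcurrentTranslates
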