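import Pool.Agent.W2helper94.CT.D

set_option autoImplicit false

/-!
# MP_ac5134: the Kakeya inequality in tube form for tubes that meet over the level shells of a
convex function of the direction

Work in `ℝ^n = ℝ^d × ℝ`, `n = d + 1`, with its Euclidean norm (`Space d`), and let `P` be the
paraboloid `{(ω, |ω|²)}`, `|ω| ≤ 1`.  The box dual to the cap at `ω` is `box N (nor ω) f 0`: its long
side `N²` is in the direction of the unit normal `nor ω = (-2ω, 1)/√(1+4|ω|²)` and its other sides `N`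
are in the directions of an arbitrary orthonormal frame `f` of the orthogonal complement.

Let `φ` be a convex function on `ℝ^d`, and let the cap centres `ω` be in a set on which
`φ(ω) ≥ φ(v₀) + κ₀ |ω - v₀|` for some point `v₀` and some `κ₀ > 0`.  (This is no restriction if `φ` is a
norm or the gauge of a convex body, `v₀ = 0`, and if `φ` has no minimum in the closed unit ball, e.g.
an affine function, with a suitable `v₀` outside.  In general it holds for the set
`φ ≥ min φ + γ`, `γ > 0`.)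

Suppose that all the translated boxes whose cap centres are in the same shell
`j/N ≤ φ(ω) - φ(v₀) < (j+1)/N` meet one common ball of radius `K N`.  The position of this ball in
`ℝ^n` is an arbitrary function of `j`: no regularity and no genericity is assumed.

For all such translates the conjectured comparison with the centred family holds, for every `p` in
`[1, ∞]`, with the constant `C (1 + log N)^((n+1)/n)`.
-/

open MeasureTheory Set ENNReal NNReal Metric

namespace Pool.Agent.Results.MP_ac5134_an.ConvexTranslates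

/-- Euclidean space `ℝ^d`. -/
abbrev Vec (d : ℕ) : Type := EuclideanSpace ℝ (Fin d)

/-- Euclidean space `ℝ^{d+1}`, written as `ℝ^d × ℝ` with the Euclidean norm. -/
abbrev Space (d : ℕ) : Type := WithLp 2 (Vec d × ℝ)

/-- The unit vector `(v, 1)/√(1+|v|²)`. -/
noncomputable def dir {d : ℕ} (v : Vec d) : Space d :=
  (√(1 + ‖v‖ ^ 2))⁻¹ • WithLp.toLp 2 (v, (1:ℝ))

/-- The unit normal `(-2ω, 1)/√(1+4|ω|²)` of the paraboloid at the point `(ω, |ω|²)`. -/
noncomputable def nor {d : ℕ} (ω : Vec d) : Space d := dir (-(2 : ℝ) • ω)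

/-- The box with centre `a`, side `N²` in the direction `e` and sides `N` in the directions `f j`. -/
def box {d : ℕ} (N : ℝ) (e : Space d) (f : Fin d → Space d) (a : Space d) : Set (Space d) :=
  {y | |inner ℝ e (y - a)| ≤ N ^ 2 / 2 ∧ ∀ j, |inner ℝ (f j) (y - a)| ≤ N / 2}

/-- The caps have centres `ω i` in the closed unit ball, `σ/N`-separated and at least `κ N^d` in
number, and `f i` is an orthonormal frame of the orthogonal complement of the normal at `ω i`. -/
def Caps {d : ℕ} {ι : Type} [Fintype ι] (σ κ N : ℝ) (ω : ι → Vec d) (f : ι → Fin d → Space d) : Prop :=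
  (∀ i, ‖ω i‖ ≤ 1) ∧ (∀ i j, i ≠ j → σ / N ≤ ‖ω i - ω j‖) ∧ κ * N ^ d ≤ (Fintype.card ι : ℝ) ∧
    ∀ i, Orthonormal ℝ (Fin.cons (nor (ω i)) (f i) : Fin (d + 1) → Space d)

/-- The sum of the indicators of the boxes of the caps with centres `a i`. -/
noncomputable def boxSum {d : ℕ} {ι : Type} [Fintype ι] (N : ℝ) (ω : ι → Vec d)
    (f : ι → Fin d → Space d) (a : ι → Space d) (y : Space d) : ℝ :=
  ∑ i, (box N (nor (ω i)) (f i) (a i)).indicator (fun _ => (1 : ℝ)) y

/-- The inequality of Q1 with constant `C`, for all exponents, for the boxes with centres `a i`. -/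
def Ineq {d : ℕ} {ι : Type} [Fintype ι] (C N : ℝ) (ω : ι → Vec d) (f : ι → Fin d → Space d)
    (a : ι → Space d) : Prop :=
  ∀ p : ℝ≥0∞, 1 ≤ p → eLpNorm (boxSum N ω f a) p volume ≤
    ENNReal.ofReal C * eLpNorm (boxSum N ω f 0) p volume

/-- All the boxes of the caps in the same shell `j/N ≤ φ(ω) - φ(v₀) < (j+1)/N` meet one ball of
radius `K N`; its centre is an arbitrary function `z` of `j`. -/
def Concurrent {d : ℕ} {ι : Type} (K N : ℝ) (φ : Vec d → ℝ) (v₀ : Vec d) (ω : ι → Vec d)
    (f : ι → Fin d → Space d) (a : ι → Space d) : Prop :=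
  ∃ z : ℤ → Space d, ∀ i,
    (box N (nor (ω i)) (f i) (a i) ∩ closedBall (z ⌊N * (φ (ω i) - φ v₀)⌋) (K * N)).Nonempty

open Pool.Agent.W2helper94.KC Pool.Agent.W2helper94.CV Pool.Agent.W2helper94.CT

theorem maxSharp {d : ℕ} {φ : Vec d → ℝ} (hφ : ConvexOn ℝ univ φ) (v₀ : Vec d) {κ : ℝ} (hκ : 0 < κ) :
    Sharp (fun v => max (φ v) (φ v₀ + κ * ‖v - v₀‖)) v₀ κ := by
  refine ⟨?_, hκ, ?_⟩
  · apply hφ.sup
    have h1 : ConvexOn ℝ univ (fun v : Vec d => ‖v - v₀‖) := by
      have h := (convexOn_univ_norm (E := Vec d)).translate_right (-v₀)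
      have e : (fun v : Vec d => ‖v - v₀‖) = (norm ∘ fun z : Vec d => -v₀ + z) := by
        funext v
        simp [sub_eq_neg_add]
      rw [e]
      simpa using h
    exact (convexOn_const (φ v₀) convex_univ).add (h1.smul hκ.le)
  · intro v
    simp only [sub_self, norm_zero, mul_zero, add_zero, max_self]
    exact le_max_right _ _

/-- **The Kakeya inequality in tube form, for all `p` in `[1, ∞]`, for translates that are concurrent
over the level shells of a convex function of the direction.** -/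
theorem result (d : ℕ) (hd : 1 ≤ d) (φ : Vec d → ℝ) (hφ : ConvexOn ℝ univ φ) (v₀ : Vec d) (κ₀ : ℝ)
    (hκ₀ : 0 < κ₀) (σ κ K : ℝ) (hσ : 0 < σ) (hσ1 : σ ≤ 1) (hκ : 0 < κ) (hK : 0 ≤ K) :
    ∃ C : ℝ, 0 < C ∧ ∀ N : ℝ, 1 ≤ N → ∀ (ι : Type) [Fintype ι] (ω : ι → Vec d)
      (f : ι → Fin d → Space d) (a : ι → Space d), Caps σ κ N ω f →
      (∀ i, φ v₀ + κ₀ * ‖ω i - v₀‖ ≤ φ (ω i)) → Concurrent K N φ v₀ ω f a →
      Ineq (C * (1 + Real.log N) ^ (((d : ℝ) + 2) / (d + 1))) N ω f a := by
  set ψ : Vec d → ℝ := fun v => max (φ v) (φ v₀ + κ₀ * ‖v - v₀‖) with hψ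
  have hsh : Sharp ψ v₀ κ₀ := maxSharp hφ v₀ hκ₀
  have hψ0 : ψ v₀ = φ v₀ := by
    rw [hψ]
    simp
  obtain ⟨E, hE, hmom⟩ := convex_moment hd hsh hK hσ hσ1
  obtain ⟨C, hC, hfin⟩ := finish d hd hκ hE
  refine ⟨C, hC, ?_⟩
  intro N hN ι _ ω f a ⟨hω, hsep, hcard, hf⟩ hmin ⟨z, hz⟩ p hp
  have hlN : 0 ≤ Real.log N := Real.log_nonneg hN
  have h1 := hmom N hN ι ω f a z hω hsep hf (fun i => by
    have h := hz i
    have e : ψ (ω i) = φ (ω i) := max_eq_left (hmin i)
    rw [e, hψ0]
    exact h)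
  have h2 := hfin N hN ι ω f a ((1 + Real.log N) ^ (d + 2)) (one_le_pow₀ (by linarith))
    hcard hf h1 p hp
  have e : ((1 + Real.log N) ^ (d + 2)) ^ (1 / ((d : ℝ) + 1)) =
      (1 + Real.log N) ^ (((d : ℝ) + 2) / (d + 1)) := by
    rw [← Real.rpow_natCast, ← Real.rpow_mul (by linarith)]
    congr 1
    push_cast
    ring
  rw [e] at h2
  exact h2

end Pool.Agent.Results.MP_ac5134_an.ConvexTranslates
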