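import Pool.Agent.W2helper94.CT.H

set_option autoImplicit false

/-!
# MP_ac5134: the Kakeya inequality in tube form for tubes that are the rays of arbitrary wave fronts

Work in `ℝ^n = ℝ^d × ℝ`, `n = d + 1`, with its Euclidean norm (`Space d`), and let `P` be the
paraboloid `{(ω, |ω|²)}`, `|ω| ≤ 1`.  The box dual to the cap at `ω` is `box N (nor ω) f 0`: its long
side `N²` is in the direction of the unit normal `nor ω = (-2ω, 1)/√(1+4|ω|²)` and its other sides `N`
are in the directions of an arbitrary orthonormal frame `f` of the orthogonal complement.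

Let `v₀` be a point of `ℝ^d` and divide the caps into the shells `j/N ≤ |ω - v₀| < (j+1)/N`.  For every `j`
let `A j` be an *arbitrary* subset of `ℝ^d` and let `s j` be an *arbitrary* height.  Suppose that every
translated box of the shell number `j` starts near a point of `A j × {s j}`, up to a distance `K N`, goes
downwards, and leaves `A j` along a shortest segment: its starting point `p` is a point of `A j`
nearest to `p + 2t (ω - v₀)`, for `0 < t ≤ H N²`.  (For `v₀ = 0` this is the point which the axis of the box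
reaches at the depth `t`; for `v₀ ≠ 0` this is the same in a moving frame.)  In other words, the boxes of
a shell are rays of the wave front which starts from the set `A j`; the sets `A j` and the heights
`s j` of different shells are not related at all.  For example, `A j` can be any hypersurface, or the
boundary of a convex body, and the boxes follow its outer normals; if `A j` is a point, then all boxes
of the shell start at this point.

For all such translates the conjectured comparison with the centred family holds, for every `p` in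
`[1, ∞]`, with the constant `C (1 + log N)^((n+1)/n)` (second part of the theorem).

The first part is a version in which `|ω - v₀|` is replaced by an arbitrary convex function `φ`: the
boxes of a shell have to be outgoing in the sense of `φ` (this implies that they do not enter the
front of the other boxes of the shell), and they must not focus.
-/

open MeasureTheory Set ENNReal NNReal Metric

namespace Pool.Agent.Results.MP_ac5134_an.WavefrontTranslates

/-- Euclidean space `ℝ^d`. -/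
abbrev Vec (d : ℕ) : Type := EuclideanSpace ℝ (Fin d)

/-- Euclidean space `ℝ^{d+1}`, written as `ℝ^d × ℝ` with the Euclidean norm. -/
abbrev Space (d : ℕ) : Type := WithLp 2 (Vec d × ℝ)

/-- The unit vector `(v, 1)/√(1+|v|²)`. -/
noncomputable def dir {d : ℕ} (v : Vec d) : Space d :=
  (√(1 + ‖v‖ ^ 2))⁻¹ • WithLp.toLp 2 (v, (1:ℝ))

/-- The unit normal `(-2ω, 1)/√(1+4|ω|²)` of the paraboloid at the point `(ω, |ω|²)`. -/
noncomputable def nor {d : ℕ} (ω : Vec d) : Space d := dir (-(2 : ℝ) • ω)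

/-- The box with centre `a`, side `N²` in the direction `e` and sides `N` in the directions `f j`. -/
def box {d : ℕ} (N : ℝ) (e : Space d) (f : Fin d → Space d) (a : Space d) : Set (Space d) :=
  {y | |inner ℝ e (y - a)| ≤ N ^ 2 / 2 ∧ ∀ j, |inner ℝ (f j) (y - a)| ≤ N / 2}

/-- The caps have centres `ω i` in the closed unit ball, `σ/N`-separated and at least `κ N^d` in
number, and `f i` is an orthonormal frame of the orthogonal complement of the normal at `ω i`. -/
def Caps {d : ℕ} {ι : Type} [Fintype ι] (σ κ N : ℝ) (ω : ι → Vec d) (f : ι → Fin d → Space d) : Prop :=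
  (∀ i, ‖ω i‖ ≤ 1) ∧ (∀ i j, i ≠ j → σ / N ≤ ‖ω i - ω j‖) ∧ κ * N ^ d ≤ (Fintype.card ι : ℝ) ∧
    ∀ i, Orthonormal ℝ (Fin.cons (nor (ω i)) (f i) : Fin (d + 1) → Space d)

/-- The sum of the indicators of the boxes of the caps with centres `a i`. -/
noncomputable def boxSum {d : ℕ} {ι : Type} [Fintype ι] (N : ℝ) (ω : ι → Vec d)
    (f : ι → Fin d → Space d) (a : ι → Space d) (y : Space d) : ℝ :=
  ∑ i, (box N (nor (ω i)) (f i) (a i)).indicator (fun _ => (1 : ℝ)) y

/-- The inequality of Q1 with constant `C`, for all exponents, for the boxes with centres `a i`. -/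
def Ineq {d : ℕ} {ι : Type} [Fintype ι] (C N : ℝ) (ω : ι → Vec d) (f : ι → Fin d → Space d)
    (a : ι → Space d) : Prop :=
  ∀ p : ℝ≥0∞, 1 ≤ p → eLpNorm (boxSum N ω f a) p volume ≤
    ENNReal.ofReal C * eLpNorm (boxSum N ω f 0) p volume

/-- The box starts near the point `(p, s)` and is below it. -/
def StartsAt {d : ℕ} (K N : ℝ) (T : Set (Space d)) (p : Vec d) (s : ℝ) : Prop :=
  (T ∩ closedBall (WithLp.toLp 2 (p, s)) (K * N)).Nonempty ∧ ∀ y ∈ T, y.snd ≤ s

/-- The boxes of each shell `j/N ≤ |ω - v₀| < (j+1)/N` start near points `(p i, s j)` with `p i ∈ A j`, and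
`p i` is a point of `A j` nearest to `p i + 2 t (ω i - v₀)`, for all `0 < t ≤ H N²`. -/
def Shortest {d : ℕ} {ι : Type} [Fintype ι] (K H N : ℝ) (v₀ : Vec d) (ω : ι → Vec d)
    (f : ι → Fin d → Space d) (a : ι → Space d) : Prop :=
  ∃ (A : ℤ → Set (Vec d)) (s : ℤ → ℝ) (p : ι → Vec d), ∀ i,
    p i ∈ A ⌊N * ‖ω i - v₀‖⌋ ∧
    StartsAt K N (box N (nor (ω i)) (f i) (a i)) (p i) (s ⌊N * ‖ω i - v₀‖⌋) ∧
    ∀ t : ℝ, 0 < t → t ≤ H * N ^ 2 → ∀ q ∈ A ⌊N * ‖ω i - v₀‖⌋,
      ‖p i + (2 * t) • (ω i - v₀) - p i‖ ≤ ‖p i + (2 * t) • (ω i - v₀) - q‖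

/-- The boxes of each shell `j/N ≤ φ(ω) - φ(v₀) < (j+1)/N` start near points `(p i, s j)`, are outgoing
in the sense of the function `φ`, and do not focus, up to the depth `H N²`. -/
def Outgoing {d : ℕ} {ι : Type} [Fintype ι] (K H β N : ℝ) (φ : Vec d → ℝ) (v₀ : Vec d)
    (ω : ι → Vec d) (f : ι → Fin d → Space d) (a : ι → Space d) : Prop :=
  ∃ (s : ℤ → ℝ) (p : ι → Vec d),
    (∀ i, StartsAt K N (box N (nor (ω i)) (f i) (a i)) (p i) (s ⌊N * (φ (ω i) - φ v₀)⌋)) ∧
    ∀ i j, ⌊N * (φ (ω i) - φ v₀)⌋ = ⌊N * (φ (ω j) - φ v₀)⌋ → ∀ t : ℝ, 0 < t → t ≤ H * N ^ 2 →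
      φ (ω i) ≤ φ (ω i + (2 * t)⁻¹ • (p i - p j)) ∧
      β * ‖(2 * t) • (ω i - ω j)‖ ≤ ‖(p i + (2 * t) • ω i) - (p j + (2 * t) • ω j)‖

open Pool.Agent.W2helper94.KC Pool.Agent.W2helper94.CV Pool.Agent.W2helper94.CT

theorem norm_convex {d : ℕ} (v₀ : Vec d) : ConvexOn ℝ univ (fun v : Vec d => ‖v - v₀‖) := by
  have h := (convexOn_univ_norm (E := Vec d)).translate_right (-v₀)
  have e : (fun v : Vec d => ‖v - v₀‖) = (norm ∘ fun z : Vec d => -v₀ + z) := by
    funext v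
    simp [sub_eq_neg_add]
  rw [e]
  simpa using h

theorem maxSharp {d : ℕ} {φ : Vec d → ℝ} (hφ : ConvexOn ℝ univ φ) (v₀ : Vec d) {κ : ℝ} (hκ : 0 < κ) :
    Sharp (fun v => max (φ v) (φ v₀ + κ * ‖v - v₀‖)) v₀ κ := by
  refine ⟨?_, hκ, ?_⟩
  · apply hφ.sup
    exact (convexOn_const (φ v₀) convex_univ).add ((norm_convex v₀).smul hκ.le)
  · intro v
    simp only [sub_self, norm_zero, mul_zero, add_zero, max_self]
    exact le_max_right _ _

theorem outgoing (d : ℕ) (hd : 1 ≤ d) (σ κ K : ℝ) (hσ : 0 < σ) (hσ1 : σ ≤ 1) (hκ : 0 < κ)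
    (hK : 0 ≤ K) (φ : Vec d → ℝ) (hφ : ConvexOn ℝ univ φ) (v₀ : Vec d) (κ₀ β : ℝ)
    (hκ₀ : 0 < κ₀) (hβ : 0 < β) (hβ1 : β ≤ 1) :
    ∃ C : ℝ, 0 < C ∧ ∀ N : ℝ, 1 ≤ N → ∀ (ι : Type) [Fintype ι] (ω : ι → Vec d)
      (f : ι → Fin d → Space d) (a : ι → Space d), Caps σ κ N ω f →
      (∀ i, φ v₀ + κ₀ * ‖ω i - v₀‖ ≤ φ (ω i)) → Outgoing K (d + 1 + K) β N φ v₀ ω f a →
      Ineq (C * (1 + Real.log N) ^ (((d : ℝ) + 2) / (d + 1))) N ω f a := by
  obtain ⟨m, rfl⟩ : ∃ m, d = m + 1 := ⟨d - 1, by omega⟩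
  set ψ : Vec (m + 1) → ℝ := fun v => max (φ v) (φ v₀ + κ₀ * ‖v - v₀‖) with hψ
  have hsh : Sharp ψ v₀ κ₀ := maxSharp hφ v₀ hκ₀
  have hψ0 : ψ v₀ = φ v₀ := by
    rw [hψ]
    simp
  obtain ⟨E, hE, hmom⟩ := front_moment hsh hK hσ hσ1 hβ hβ1
  obtain ⟨C, hC, hfin⟩ := finish (m + 1) hd hκ hE
  refine ⟨C, hC, ?_⟩
  intro N hN ι _ ω f a ⟨hω, hsep, hcard, hf⟩ hmin ⟨s, p, hst, hout⟩ q hq
  have hlN : 0 ≤ Real.log N := Real.log_nonneg hN
  have hcl : ∀ i, cl N ψ v₀ (ω i) = ⌊N * (φ (ω i) - φ v₀)⌋ := by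
    intro i
    unfold cl
    rw [hψ0]
    have e : ψ (ω i) = φ (ω i) := max_eq_left (hmin i)
    rw [e]
  have h1 := hmom N hN ι ω f a s p hω hsep hf (fun i => by rw [hcl]; exact (hst i).1)
    (fun i => by rw [hcl]; exact (hst i).2)
    (fun i i' hii t ht0 ht1 => by
      rw [hcl, hcl] at hii
      have e : ψ (ω i) = φ (ω i) := max_eq_left (hmin i)
      rw [e]
      exact (hout i i' hii t ht0 (by exact_mod_cast ht1)).1.trans (le_max_left _ _))
    (fun i i' hii t ht0 ht1 => by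
      rw [hcl, hcl] at hii
      have h2 := (hout i i' hii t ht0 (by exact_mod_cast ht1)).2
      rw [norm_smul, Real.norm_eq_abs, abs_of_pos (by positivity : 0 < 2 * t)] at h2
      have e : (p i - p i') + (2 * t) • (ω i - ω i') =
          (p i + (2 * t) • ω i) - (p i' + (2 * t) • ω i') := by module
      rw [e, mul_assoc]
      exact h2)
  have h2 := hfin N hN ι ω f a ((1 + Real.log N) ^ ((m + 1) + 2)) (one_le_pow₀ (by linarith))
    hcard hf h1 q hq
  have e : ((1 + Real.log N) ^ ((m + 1) + 2)) ^ (1 / (((m + 1 : ℕ) : ℝ) + 1)) =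
      (1 + Real.log N) ^ ((((m + 1 : ℕ) : ℝ) + 2) / (((m + 1 : ℕ) : ℝ) + 1)) := by
    rw [← Real.rpow_natCast, ← Real.rpow_mul (by linarith)]
    congr 1
    push_cast
    ring
  rw [e] at h2
  exact h2

theorem outgoing_of_shortest {d : ℕ} {ι : Type} [Fintype ι] {K H N : ℝ} {v₀ : Vec d} {ω : ι → Vec d}
    {f : ι → Fin d → Space d} {a : ι → Space d} (h : Shortest K (2 * H) N v₀ ω f a) :
    Outgoing K H 1 N (fun v => ‖v - v₀‖) v₀ ω f a := by
  obtain ⟨A, s, p, hp⟩ := h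
  have ecl : ∀ i, ⌊N * (‖ω i - v₀‖ - ‖v₀ - v₀‖)⌋ = ⌊N * ‖ω i - v₀‖⌋ := by
    intro i
    rw [sub_self, norm_zero, sub_zero]
  have hshort : ∀ i j, ⌊N * ‖ω i - v₀‖⌋ = ⌊N * ‖ω j - v₀‖⌋ → ∀ t : ℝ, 0 < t → t ≤ 2 * H * N ^ 2 →
      2 * t * ‖ω i - v₀‖ ≤ ‖(p i - p j) + (2 * t) • (ω i - v₀)‖ := by
    intro i j hij t ht0 ht1
    have h1 := (hp i).2.2 t ht0 ht1 (p j) (by rw [hij]; exact (hp j).1)
    rw [add_sub_cancel_left, norm_smul, Real.norm_eq_abs, abs_of_pos (by positivity : 0 < 2 * t)] at h1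
    have e : (p i - p j) + (2 * t) • (ω i - v₀) = p i + (2 * t) • (ω i - v₀) - p j := by abel
    rw [e]
    exact h1
  refine ⟨s, p, fun i => ?_, ?_⟩
  · simp only
    rw [ecl]
    exact (hp i).2.1
  · intro i j hij t ht0 ht1
    simp only at hij
    rw [ecl, ecl] at hij
    have hHN : 0 < H * N ^ 2 := lt_of_lt_of_le ht0 ht1
    constructor
    · simp only
      have h1 := hshort i j hij t ht0 (by linarith)
      have e : ω i + (2 * t)⁻¹ • (p i - p j) - v₀ =
          (2 * t)⁻¹ • ((p i - p j) + (2 * t) • (ω i - v₀)) := by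
        rw [smul_add, smul_smul, inv_mul_cancel₀ (by positivity), one_smul]
        abel
      rw [e, norm_smul, norm_inv, Real.norm_eq_abs, abs_of_pos (by positivity : 0 < 2 * t)]
      rw [inv_mul_eq_div, le_div_iff₀ (by positivity)]
      linarith
    · have h1 := hshort i j hij (2 * t) (by positivity) (by linarith)
      have h2 := hshort j i hij.symm (2 * t) (by positivity) (by linarith)
      have h3 := spread_of_shortest (x := ω i - v₀) (x' := ω j - v₀) (q := p i - p j) (t := 2 * t)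
        (by positivity) h1 (by rw [neg_sub]; exact h2)
      have e1 : (ω i - v₀) - (ω j - v₀) = ω i - ω j := by abel
      rw [e1] at h3
      rw [one_mul, norm_smul, Real.norm_eq_abs, abs_of_pos (by positivity : 0 < 2 * t)]
      have e2 : (p i + (2 * t) • ω i) - (p j + (2 * t) • ω j) =
          (p i - p j) + (2 * t) • (ω i - ω j) := by module
      rw [e2]
      exact h3

/-- **The Kakeya inequality in tube form, for all `p` in `[1, ∞]`, for the rays of arbitrary wave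
fronts.** -/
theorem result (d : ℕ) (hd : 1 ≤ d) (σ κ K : ℝ) (hσ : 0 < σ) (hσ1 : σ ≤ 1) (hκ : 0 < κ)
    (hK : 0 ≤ K) :
    (∀ (φ : Vec d → ℝ), ConvexOn ℝ univ φ → ∀ (v₀ : Vec d) (κ₀ β : ℝ), 0 < κ₀ → 0 < β → β ≤ 1 →
      ∃ C : ℝ, 0 < C ∧ ∀ N : ℝ, 1 ≤ N → ∀ (ι : Type) [Fintype ι] (ω : ι → Vec d)
        (f : ι → Fin d → Space d) (a : ι → Space d), Caps σ κ N ω f →
        (∀ i, φ v₀ + κ₀ * ‖ω i - v₀‖ ≤ φ (ω i)) → Outgoing K (d + 1 + K) β N φ v₀ ω f a →
        Ineq (C * (1 + Real.log N) ^ (((d : ℝ) + 2) / (d + 1))) N ω f a) ∧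
    ∀ v₀ : Vec d, ∃ C : ℝ, 0 < C ∧ ∀ N : ℝ, 1 ≤ N → ∀ (ι : Type) [Fintype ι] (ω : ι → Vec d)
      (f : ι → Fin d → Space d) (a : ι → Space d), Caps σ κ N ω f →
      Shortest K (2 * (d + 1 + K)) N v₀ ω f a →
      Ineq (C * (1 + Real.log N) ^ (((d : ℝ) + 2) / (d + 1))) N ω f a := by
  refine ⟨fun φ hφ v₀ κ₀ β hκ₀ hβ hβ1 =>
    outgoing d hd σ κ K hσ hσ1 hκ hK φ hφ v₀ κ₀ β hκ₀ hβ hβ1, fun v₀ => ?_⟩
  obtain ⟨C, hC, h⟩ := outgoing d hd σ κ K hσ hσ1 hκ hK (fun v => ‖v - v₀‖) (norm_convex v₀) v₀ 1 1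
    one_pos one_pos le_rfl
  refine ⟨C, hC, fun N hN ι _ ω f a hcaps hsh => h N hN ι ω f a hcaps (fun i => ?_)
    (outgoing_of_shortest hsh)⟩
  simp

end Pool.Agent.Results.MP_ac5134_an.WavefrontTranslates
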